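import Pool.Agent.helper75.IQ.Spec

/-!
# Row iq:HGT (MP_84f457_gt): the height function
-/

set_option autoImplicit false

namespace Pool.Agent.helper75.IQ

open MeasureTheory Set

/-- the integrand -/
noncomputable def HGT_F (κ τ R v : ℝ) : ℝ := lam κ v * √((1 + τ ^ 2 * v) / (R ^ 2 - v))

theorem HGT_pos {κ R v : ℝ} (hκ : κ ≤ 0) (hR : -4 < κ * R ^ 2) (hv : v ≤ R ^ 2) :
    0 < 1 + κ / 4 * v := by
  have h := mul_le_mul_of_nonpos_left hv hκ
  linarith

theorem HGT_lam {κ R : ℝ} (hκ : κ ≤ 0) (hR : -4 < κ * R ^ 2) : ContinuousOn (lam κ) (Iic (R ^ 2)) := by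
  unfold lam
  refine ContinuousOn.inv₀ (by fun_prop) ?_
  intro v hv
  exact (HGT_pos hκ hR hv).ne'

theorem HGT_cont {κ τ R : ℝ} (hκ : κ ≤ 0) (hR : -4 < κ * R ^ 2) :
    ContinuousOn (HGT_F κ τ R) (Iio (R ^ 2)) := by
  unfold HGT_F
  refine ((HGT_lam hκ hR).mono Iio_subset_Iic_self).mul ?_
  refine ContinuousOn.sqrt (ContinuousOn.div (by fun_prop) (by fun_prop) ?_)
  intro v hv
  exact (sub_pos.2 hv).ne'

theorem HGT_eq {κ τ R v : ℝ} (hv : v ≤ R ^ 2) :
    lam κ v * √(1 + τ ^ 2 * v) * (R ^ 2 - v) ^ (-(1 / 2) : ℝ) = HGT_F κ τ R v := by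
  have h : 0 ≤ R ^ 2 - v := sub_nonneg.2 hv
  unfold HGT_F
  rw [Real.sqrt_div' _ h, Real.rpow_neg h, ← Real.sqrt_eq_rpow, div_eq_mul_inv, mul_assoc]

theorem HGT_int {κ τ R w : ℝ} (hκ : κ ≤ 0) (hR : -4 < κ * R ^ 2) (hw : w ≤ R ^ 2) :
    IntervalIntegrable (HGT_F κ τ R) volume w (R ^ 2) := by
  have h1 : IntervalIntegrable (fun v : ℝ => (R ^ 2 - v) ^ (-(1 / 2) : ℝ)) volume w (R ^ 2) := by
    have h := (intervalIntegral.intervalIntegrable_rpow' (a := R ^ 2 - w) (b := 0)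
      (r := (-(1 / 2) : ℝ)) (by norm_num)).comp_sub_left (R ^ 2)
    rwa [sub_sub_cancel, sub_zero] at h
  have h2 : ContinuousOn (fun v => lam κ v * √(1 + τ ^ 2 * v)) (uIcc w (R ^ 2)) := by
    rw [uIcc_of_le hw]
    exact ((HGT_lam hκ hR).mono Icc_subset_Iic_self).mul
      (ContinuousOn.sqrt (by fun_prop))
  refine (h1.continuousOn_mul h2).congr ?_
  intro v hv
  rw [uIoc_of_le hw] at hv
  exact HGT_eq hv.2

theorem HGT : HGT_stmt := by
  intro κ τ R hκ hR0 hR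
  have hint : ∀ w, w ≤ R ^ 2 → IntervalIntegrable (HGT_F κ τ R) volume w (R ^ 2) :=
    fun w hw => HGT_int hκ hR hw
  refine ⟨hint, ?_, ?_, ?_, ?_, ?_⟩
  · unfold hgt
    rw [intervalIntegral.integral_same, zero_div]
  · intro w hw
    have hw' : w ≤ R ^ 2 := hw
    have h1 : ContinuousOn (fun x => ∫ t in x..R ^ 2, HGT_F κ τ R t) (uIcc (w - 1) (R ^ 2)) := by
      apply intervalIntegral.continuousOn_primitive_interval_left
      have h2 := hint (w - 1) (by linarith)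
      rw [intervalIntegrable_iff_integrableOn_Icc_of_le (by linarith)] at h2
      rwa [uIcc_of_le (by linarith)]
    rw [uIcc_of_le (by linarith)] at h1
    have h3 := (h1 w ⟨by linarith, hw'⟩).div_const 2
    refine h3.mono_of_mem_nhdsWithin ?_
    rw [mem_nhdsWithin]
    exact ⟨Ioi (w - 1), isOpen_Ioi, by simp, fun x hx => ⟨hx.1.le, hx.2⟩⟩
  · intro w hw0 hw
    have h1 : 0 < ∫ t in w..R ^ 2, HGT_F κ τ R t := by
      refine intervalIntegral.intervalIntegral_pos_of_pos_on (hint w hw.le) ?_ hw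
      intro v hv
      have hv0 : 0 < v := lt_of_le_of_lt hw0 hv.1
      refine mul_pos (inv_pos.2 (HGT_pos hκ hR hv.2.le)) (Real.sqrt_pos.2 (div_pos ?_ ?_))
      · positivity
      · exact sub_pos.2 hv.2
    exact half_pos h1
  · intro w hw
    have h1 : HasDerivAt (fun u => ∫ t in u..R ^ 2, HGT_F κ τ R t) (-(HGT_F κ τ R w)) w :=
      intervalIntegral.integral_hasDerivAt_left (hint w hw.le)
        ((HGT_cont hκ hR).stronglyMeasurableAtFilter isOpen_Iio w hw)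
        ((HGT_cont hκ hR).continuousAt (Iio_mem_nhds hw))
    exact h1.div_const 2
  · exact ((HGT_cont hκ hR).neg).div_const 2

end Pool.Agent.helper75.IQ
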